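import Pool.Agent.Lib.MP_c1c035_an.Defs
import Pool.Agent.Lib.MP_c1c035_an.Hyperbolic
import Pool.Agent.Lib.MP_c1c035_an.NonAnalytic

/-!
# The continuation of a hyperbolic periodic orbit of an analytic delay equation need not be
analytic in the parameter

With `ξ` and `z` complex (so the state space is `ℝ ^ 4`), one delay `2π` and parameter `a` near `1`,
the system is

  `ξ'(t) = (i a + 1 - |ξ(t)|²) ξ(t)`,
  `z'(t) = a (i z(t - 2π) / 10 + H(ξ(t)))`

with `H` the entire function `HH`.  Its periodic solutions near the base one are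
`(exp (i a t), ∑ z_k(a) exp (i k a t))` with `z_k(a) = -i h_k / (k - exp (-2 π i k a) / 10)`.
-/

set_option autoImplicit false

namespace Pool.Agent.Results.MP_c1c035_an.Disproof

open Pool.Agent.Lib.MP_c1c035_an

/-- There are a real analytic delay equation with constant delays and a hyperbolic periodic
solution of it whose Poincaré continuation exists but is not real analytic in the parameter. -/
theorem result :
    ∃ (N M : ℕ) (r : Fin M → ℝ) (R : ℝ) (f : (Fin (M + 1) → St N) × ℝ → St N)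
      (α₀ p₀ : ℝ) (x₀ : ℝ → St N),
      1 ≤ N ∧ 1 ≤ M ∧ (∀ k, 0 ≤ r k) ∧ IsGreatest (Set.range r) R ∧
      AnalyticOnNhd ℝ f Set.univ ∧
      IsSolution f r α₀ x₀ ∧ IsMinimalPeriod x₀ p₀ ∧ IsHyperbolic f r R α₀ x₀ p₀ ∧
      (∃ (X : ℝ → ℝ → St N) (P : ℝ → ℝ), IsContinuation f r α₀ x₀ p₀ X P) ∧
      ∀ (X : ℝ → ℝ → St N) (P : ℝ → ℝ), IsContinuation f r α₀ x₀ p₀ X P →
        ¬ AnalyticAt ℝ (fun α => X α 0) α₀ := by
  refine ⟨4, 1, rr, 2 * Real.pi, ff, 1, 2 * Real.pi, x0, by norm_num, le_rfl, ?_, ?_, analytic_ff,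
    x0_solution, x0_minimal, x0_hyperbolic, ⟨Xs, Ps, continuation_exists⟩, ?_⟩
  · intro k
    rw [Subsingleton.elim k 0]
    exact two_pi_nonneg
  · constructor
    · exact ⟨0, rfl⟩
    · rintro _ ⟨k, rfl⟩
      rw [Subsingleton.elim k 0]
      exact le_rfl
  · intro X P h hX
    have h1 : AnalyticAt ℝ (fun a => c23 (X a 0)) 1 := (c23.analyticAt _).comp hX
    exact not_analyticAt_Z (h1.congr (continuation_unique h))

end Pool.Agent.Results.MP_c1c035_an.Disproof
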